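import Pool.Agent.GT.StmtsD

/-!
D_SQR: a positive integer with even exponents is a square.
-/

set_option autoImplicit false

namespace Pool.Agent.GT.D.H72

open Polynomial Pool.Agent.NJ

theorem nat_sq {N : ℕ} (h0 : N ≠ 0) (h : ∀ p : ℕ, p.Prime → Even (N.factorization p)) :
    IsSquare N := by
  refine ⟨∏ p ∈ N.primeFactors, p ^ (N.factorization p / 2), ?_⟩
  rw [← Finset.prod_mul_distrib]
  have h1 := Nat.prod_factorization_pow_eq_self h0
  unfold Finsupp.prod at h1
  rw [Nat.support_factorization] at h1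
  refine h1.symm.trans (Finset.prod_congr rfl fun p hp => ?_)
  rw [← pow_add]
  congr 1
  obtain ⟨k, hk⟩ := h p (Nat.prime_of_mem_primeFactors hp)
  rw [hk]
  omega

theorem d_sqr : SqrStmt := by
  intro n hn hs hv
  have hpos : 0 ≤ n := by
    by_contra h
    unfold sg at hs
    rw [if_pos (not_le.1 h)] at hs
    exact one_ne_zero hs
  obtain ⟨N, rfl⟩ := Int.eq_ofNat_of_zero_le hpos
  have hN : N ≠ 0 := by
    rintro rfl
    exact hn rfl
  obtain ⟨c, hc⟩ := nat_sq hN (fun p hp => by
    have h1 := hv p hp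
    unfold vl at h1
    rw [ZMod.natCast_eq_zero_iff_even] at h1
    have h2 : padicValInt p (N : ℤ) = N.factorization p := by
      rw [padicValInt.of_nat, Nat.factorization_def _ hp]
    rwa [h2] at h1)
  exact ⟨(c : ℤ), by rw [hc]; push_cast; rfl⟩

end Pool.Agent.GT.D.H72
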